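import Pool.Agent.Helper45.SP.GoalsFG
import Pool.Agent.Helper19.Lin.IDT
import Pool.Agent.Helper68.Lin.CAU

/-! # Packet PG: the maps on the ball of radius `4` form a local group -/

open Complex Metric Set Filter Topology
open scoped ContDiff ComplexConjugate

namespace Pool.Agent.Helper2.SP

open Pool.Agent.Helper95.Lin Pool.Agent.Helper10.SP Pool.Agent.Helper45.SP

theorem contDiff_detC (b : ℕ) : ContDiff ℂ 1 (fun A : Cn b →L[ℂ] Cn b => A.det) := by
  let e := Pi.basisFun ℂ (Fin b)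
  have h : (fun A : Cn b →L[ℂ] Cn b => A.det) =
      fun A => Matrix.det (Matrix.of fun i j => e.coord i (A (e j))) := by
    ext A
    rw [ContinuousLinearMap.det, ← LinearMap.det_toMatrix e]
    congr 1
    ext i j
    rw [LinearMap.toMatrix_apply]
    rfl
  rw [h]
  simp only [Matrix.det_apply]
  refine ContDiff.sum fun σ _ => ContDiff.const_smul _ (contDiff_prod fun i _ => ?_)
  exact ((LinearMap.toContinuousLinearMap (e.coord (σ i))).comp
    (ContinuousLinearMap.apply ℂ (Cn b) (e i))).contDiff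

/-- The logarithm of the determinant near the identity. -/
theorem logdet (b : ℕ) : ∃ δ > 0, ∃ C : ℝ, 0 ≤ C ∧ ∀ L : Cn b →L[ℂ] Cn b,
    ‖L - ContinuousLinearMap.id ℂ (Cn b)‖ ≤ δ →
    |Real.log (‖L.det‖ ^ 2)| ≤ C * ‖L - ContinuousLinearMap.id ℂ (Cn b)‖ := by
  set I : Cn b →L[ℂ] Cn b := ContinuousLinearMap.id ℂ (Cn b)
  have hI : I.det = 1 := by
    simp [I, ContinuousLinearMap.det]
  obtain ⟨K, t, ht, hK⟩ := ((contDiff_detC b).contDiffAt (x := I)).exists_lipschitzOnWith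
  obtain ⟨δ, hδ, hsub⟩ := Metric.mem_nhds_iff.1 ht
  refine ⟨min (δ / 2) (1 / (2 * (K + 1))), by positivity, 4 * K, by positivity, ?_⟩
  intro L hL
  have h1 : L ∈ t := hsub (by
    rw [mem_ball, dist_eq_norm]
    linarith [hL.trans (min_le_left _ _)])
  have h2 : I ∈ t := hsub (mem_ball_self hδ)
  have h3 : ‖L.det - 1‖ ≤ K * ‖L - I‖ := by
    have := hK.dist_le_mul L h1 I h2
    simpa [dist_eq_norm, hI] using this
  have hK0 : (0 : ℝ) ≤ K := K.2
  have h4 : ‖L.det - 1‖ ≤ 1 / 2 := by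
    refine h3.trans ?_
    calc (K : ℝ) * ‖L - I‖ ≤ K * (1 / (2 * (K + 1))) := by
          gcongr
          exact hL.trans (min_le_right _ _)
      _ ≤ 1 / 2 := by
          rw [mul_one_div, div_le_div_iff₀ (by positivity) (by norm_num)]
          linarith
  have h5 : |‖L.det‖ - 1| ≤ ‖L.det - 1‖ := by
    have := abs_norm_sub_norm_le L.det 1
    simpa using this
  have h6 : 1 / 2 ≤ ‖L.det‖ := by
    have := abs_le.1 (h5.trans h4)
    linarith [this.1]
  have hpos : 0 < ‖L.det‖ := by linarith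
  have h7 : |Real.log ‖L.det‖| ≤ 2 * ‖L.det - 1‖ := by
    rw [abs_le]
    constructor
    · have := Real.one_sub_inv_le_log_of_pos hpos
      have h8 : 1 - ‖L.det‖⁻¹ = (‖L.det‖ - 1) / ‖L.det‖ := by
        field_simp
      have h9 : -(2 * ‖L.det - 1‖) ≤ (‖L.det‖ - 1) / ‖L.det‖ := by
        rw [le_div_iff₀ hpos]
        have := (abs_le.1 h5).1
        nlinarith [norm_nonneg (L.det - 1)]
      linarith
    · have := Real.log_le_sub_one_of_pos hpos
      have := (abs_le.1 h5).2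
      linarith [norm_nonneg (L.det - 1)]
  rw [Real.log_pow, abs_mul]
  have : |((2 : ℕ) : ℝ)| = 2 := by norm_num
  rw [this]
  nlinarith [norm_nonneg (L - I)]

variable {b N : ℕ}

theorem ball_sub_Bd {c : Fin N → Cn b} {r R : ℝ} (h : r ≤ R) (i : Fin N) :
    ball (c i) r ⊆ Bd c R := fun _ hz => mem_iUnion.2 ⟨i, ball_subset_ball h hz⟩

theorem Rge8 {c : Fin N → Cn b} {R : ℝ} {P : Set (Cn b) → Tri b → Prop} {Φ : Cn b → ℝ} {C : ℝ}
    (h : AFol c R P Φ C) : 8 ≤ R := by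
  have := h.Rge
  have := h.Cge
  linarith

/-- A nontrivial map on the ball is nontrivial on the smaller ball. -/
theorem nontriv {z₀ : Cn b} {g : Cn b → Cn b} {r ρ : ℝ} (hρ : 0 < ρ) (hρr : ρ ≤ r)
    (hg : DifferentiableOn ℂ g (ball z₀ r)) (h : ∀ z ∈ ball z₀ ρ, g z = z) :
    ∀ z ∈ ball z₀ r, g z = z := by
  intro z hz
  have := Pool.Agent.Helper19.Lin.idt (ball z₀ r) isOpen_ball (convex_ball z₀ r).isPreconnected
    (fun w => g w - w) (hg.sub differentiableOn_id) z₀ (mem_ball_self (hρ.trans_le hρr)) (by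
      filter_upwards [ball_mem_nhds z₀ hρ] with w hw
      rw [h w hw, sub_self]) z hz
  exact sub_eq_zero.1 this

theorem pg_lip {c : Fin N → Cn b} {R : ℝ} {P : Set (Cn b) → Tri b → Prop} {Φ : Cn b → ℝ} {C : ℝ}
    (h : AFol c R P Φ C) (i : Fin N) :
    ∃ η > 0, ∃ C' : ℝ, ∀ t ∈ {t | Big c P i t}, ∀ s ≤ η, Near (c i) (4 / 2) t.g s →
    ∀ z ∈ ball (c i) (4 / 3), |‖t.a z‖ - 1| ≤ C' * s := by
  have hR := Rge8 h
  obtain ⟨K', hK'U, -, hKK', C₁, hC₁, hcau⟩ := Pool.Agent.Helper68.Lin.CAU (n := b) (m := b)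
    (ball (c i) 2) isOpen_ball (closedBall (c i) (4 / 3)) (closedBall_subset_ball (by norm_num))
    (isCompact_closedBall _ _)
  obtain ⟨δ, hδ, C₂, hC₂, hdet⟩ := logdet b
  -- the function `Φ` is Lipschitz
  have hopen : IsOpen (Bd c R) := isOpen_iUnion fun _ => isOpen_ball
  have hsub2 : closedBall (c i) 2 ⊆ Bd c R :=
    (closedBall_subset_ball (by linarith : (2 : ℝ) < R)).trans (ball_sub_Bd le_rfl i)
  have hΦd : ∀ x ∈ Bd c R, DifferentiableAt ℝ Φ x := fun x hx =>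
    ((h.smooth.differentiableOn (by simp)) x hx).differentiableAt (hopen.mem_nhds hx)
  have hΦc : ContinuousOn (fun x => ‖fderiv ℝ Φ x‖) (closedBall (c i) 2) :=
    ((h.smooth.continuousOn_fderiv_of_isOpen hopen (by simp)).norm).mono hsub2
  obtain ⟨B, hB⟩ := (isCompact_closedBall (c i) 2).bddAbove_image hΦc
  have hB' : ∀ x ∈ closedBall (c i) 2, ‖fderiv ℝ Φ x‖ ≤ B := fun x hx => hB ⟨x, hx, rfl⟩
  have hB0 : 0 ≤ B := (norm_nonneg _).trans (hB' (c i) (mem_closedBall_self (by norm_num)))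
  have hlipΦ : ∀ x ∈ closedBall (c i) 2, ∀ y ∈ closedBall (c i) 2, |Φ x - Φ y| ≤ B * ‖x - y‖ := by
    intro x hx y hy
    have := (convex_closedBall (c i) 2).norm_image_sub_le_of_norm_fderiv_le
      (fun z hz => hΦd z (hsub2 hz)) hB' hy hx
    simpa [Real.norm_eq_abs] using this
  set D : ℝ := B + C₂ * C₁ + 1 with hD
  have hDpos : 0 < D := by positivity
  refine ⟨min (1 / 4) (min (δ / (C₁ + 1)) (1 / D)), by positivity, D, ?_⟩
  intro t ht s hs hnear z hz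
  have hs0 : 0 ≤ s := (norm_nonneg _).trans (hnear (c i) (mem_ball_self (by norm_num)))
  have hs1 : s ≤ 1 / 4 := hs.trans (min_le_left _ _)
  have hs2 : s ≤ δ / (C₁ + 1) := hs.trans ((min_le_right _ _).trans (min_le_left _ _))
  have hs3 : s ≤ 1 / D := hs.trans ((min_le_right _ _).trans (min_le_right _ _))
  have h42 : (4 / 2 : ℝ) = 2 := by norm_num
  rw [h42] at hnear
  obtain ⟨-, -, hg, -, -, hval⟩ := h.holo _ _ ht.1
  have hz2 : z ∈ ball (c i) 2 := ball_subset_ball (by norm_num) hz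
  have hz4 : z ∈ ball (c i) 4 := ball_subset_ball (by norm_num) hz
  have hgz : t.g z ∈ closedBall (c i) 2 := by
    rw [mem_closedBall, dist_eq_norm]
    have h1 := hnear z hz2
    have h2 : ‖z - c i‖ < 4 / 3 := by simpa [dist_eq_norm] using hz
    calc ‖t.g z - c i‖ = ‖(t.g z - z) + (z - c i)‖ := by congr 1; abel
      _ ≤ ‖t.g z - z‖ + ‖z - c i‖ := norm_add_le _ _
      _ ≤ 2 := by linarith
  have hgat : DifferentiableAt ℂ t.g z := (hg z hz4).differentiableAt (isOpen_ball.mem_nhds hz4)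
  have hder : ‖fderiv ℂ t.g z - ContinuousLinearMap.id ℂ (Cn b)‖ ≤ C₁ * s := by
    have h1 := (hcau (fun w => t.g w - w)
      ((hg.mono (ball_subset_ball (by norm_num))).sub differentiableOn_id) s
      (fun w hw => hnear w (hK'U hw))).1 z (ball_subset_closedBall hz)
    have h2 : fderiv ℂ (fun w => t.g w - w) z =
        fderiv ℂ t.g z - ContinuousLinearMap.id ℂ (Cn b) := by
      exact (hgat.hasFDerivAt.sub (hasFDerivAt_id z)).fderiv
    rwa [h2] at h1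
  have hlog1 : |Real.log (‖(fderiv ℂ t.g z).det‖ ^ 2)| ≤ C₂ * (C₁ * s) := by
    refine (hdet _ (hder.trans ?_)).trans (by gcongr)
    calc C₁ * s ≤ (C₁ + 1) * (δ / (C₁ + 1)) := by
          apply mul_le_mul (by linarith) hs2 hs0 (by positivity)
      _ = δ := by field_simp
  have hlog2 : |Φ z - Φ (t.g z)| ≤ B * s := by
    refine (hlipΦ z (ball_subset_closedBall hz2) _ hgz).trans ?_
    gcongr
    rw [norm_sub_rev]
    exact hnear z hz2
  obtain ⟨-, hpot⟩ := h.pot _ _ ht.1 z hz4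
  have hane : t.a z ≠ 0 := (hval z hz4).2
  have hapos : 0 < ‖t.a z‖ := norm_pos_iff.2 hane
  have hloga : |Real.log ‖t.a z‖| ≤ D * s / 2 := by
    have h1 : Real.log (‖t.a z‖ ^ 2) =
        (Φ z - Φ (t.g z)) - Real.log (‖(fderiv ℂ t.g z).det‖ ^ 2) := by linarith
    have h2 : |Real.log (‖t.a z‖ ^ 2)| ≤ D * s := by
      rw [h1]
      refine (abs_sub _ _).trans ?_
      rw [hD]
      nlinarith
    rw [Real.log_pow, abs_mul] at h2
    have h3 : |((2 : ℕ) : ℝ)| = 2 := by norm_num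
    rw [h3] at h2
    linarith
  have hDs : D * s ≤ 1 := by
    calc D * s ≤ D * (1 / D) := by gcongr
      _ = 1 := by field_simp
  have h1 := Real.abs_exp_sub_one_le (x := Real.log ‖t.a z‖) (by linarith)
  rw [Real.exp_log hapos] at h1
  linarith

theorem pg_fin {c : Fin N → Cn b} {R : ℝ} {P : Set (Cn b) → Tri b → Prop} {Φ : Cn b → ℝ} {C : ℝ}
    (h : AFol c R P Φ C) (i : Fin N) :
    ∀ R' : ℝ, ∃ η > 0, ∀ t ∈ {t | Big c P i t}, Near (c i) (4 / 2) t.g η → ‖t.β (c i)‖ ≤ R' →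
    ∀ z ∈ ball (c i) 4, t.g z = z := by
  intro R'
  by_contra hcon
  push Not at hcon
  have step : ∀ η : {x : ℝ // 0 < x}, ∃ p : Tri b × {x : ℝ // 0 < x}, Big c P i p.1 ∧
      Near (c i) (4 / 2) p.1.g η ∧ ‖p.1.β (c i)‖ ≤ R' ∧ (p.2 : ℝ) ≤ η ∧
      ∃ z ∈ ball (c i) (4 / 2), (p.2 : ℝ) < ‖p.1.g z - z‖ := by
    rintro ⟨η, hη⟩
    obtain ⟨t, ht, hn, hβ, z, hz, hne⟩ := hcon η hη
    obtain ⟨-, -, hg, -, -, -⟩ := h.holo _ _ ht.1
    have h1 : ∃ w ∈ ball (c i) (4 / 2), t.g w ≠ w := by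
      by_contra hall
      push Not at hall
      exact hne (nontriv (by norm_num) (by norm_num) hg hall z hz)
    obtain ⟨w, hw, hwne⟩ := h1
    have hpos : 0 < ‖t.g w - w‖ := norm_pos_iff.2 (sub_ne_zero.2 hwne)
    refine ⟨⟨t, ⟨min η (‖t.g w - w‖ / 2), by positivity⟩⟩, ht, hn, hβ, min_le_left _ _, w, hw, ?_⟩
    exact (min_le_right _ _).trans_lt (by linarith)
  choose f hf using step
  let e : ℕ → {x : ℝ // 0 < x} := fun n => Nat.rec ⟨1, one_pos⟩ (fun _ x => (f x).2) n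
  have he : ∀ n, e (n + 1) = (f (e n)).2 := fun n => rfl
  have hanti : Antitone fun n => (e n).1 := by
    apply antitone_nat_of_succ_le
    intro n
    rw [he]
    exact (hf (e n)).2.2.2.1
  obtain ⟨k, l, hkl, hEq⟩ := h.fin i R' (fun n => (f (e n)).1) fun n =>
    ⟨(hf (e n)).1, (hf (e n)).2.2.1⟩
  have key : ∀ k l : ℕ, k < l → (f (e k)).1.EqOn (f (e l)).1 (ball (c i) 4) → False := by
    intro k l hkl hEq
    obtain ⟨z, hz, hlt⟩ := (hf (e k)).2.2.2.2
    have h1 := (hf (e l)).2.1 z hz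
    have h2 : (e l).1 ≤ (e (k + 1)).1 := hanti hkl
    rw [he] at h2
    have h3 := (hEq z (ball_subset_ball (by norm_num) hz)).1
    rw [h3] at hlt
    linarith
  rcases lt_or_gt_of_ne hkl with h1 | h1
  · exact key k l h1 hEq
  · exact key l k h1 fun z hz => ⟨(hEq z hz).1.symm, (hEq z hz).2.1.symm, (hEq z hz).2.2.symm⟩

/-- **Packet PG.** -/
theorem PG : S_PG := by
  intro b N c R P Φ C h i
  have hR := Rge8 h
  have hC := h.Cge
  have hsub4 : ball (c i) 4 ⊆ Bd c R := ball_sub_Bd (by linarith) i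
  have hci2 : c i ∈ ball (c i) 2 := mem_ball_self (by norm_num)
  have hci4 : c i ∈ ball (c i) 4 := mem_ball_self (by norm_num)
  have hciB : c i ∈ Bd c 2 := ball_sub_Bd le_rfl i hci2
  refine ⟨⟨by norm_num, ?_, ?_, ?_, ?_, ?_, ?_, ?_, ?_⟩, pg_lip h i, ?_, pg_fin h i⟩
  · exact fun t ht => (h.holo _ _ ht.1).2.2.1
  · exact fun t ht => (h.holo _ _ ht.1).2.2.2.1
  · exact fun t ht => (h.holo _ _ ht.1).2.2.2.2.1
  · exact fun t ht z hz => ((h.holo _ _ ht.1).2.2.2.2.2 z hz).2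
  · refine ⟨(∑ j, ‖c j‖) + 2 + C * 8, ?_⟩
    rintro t ⟨htP, z₁, hz₁, hz₁B⟩ z hz
    obtain ⟨j, hj⟩ := mem_iUnion.1 hz₁B
    have h1 : ‖t.g z₁‖ ≤ (∑ j, ‖c j‖) + 2 := by
      have h2 : ‖t.g z₁ - c j‖ < 2 := by simpa [dist_eq_norm] using hj
      have h3 : ‖c j‖ ≤ ∑ j, ‖c j‖ :=
        Finset.single_le_sum (f := fun j => ‖c j‖) (fun _ _ => norm_nonneg _) (Finset.mem_univ j)
      calc ‖t.g z₁‖ = ‖(t.g z₁ - c j) + c j‖ := by congr 1; abel
        _ ≤ ‖t.g z₁ - c j‖ + ‖c j‖ := norm_add_le _ _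
        _ ≤ _ := by linarith
    have hz₁4 : z₁ ∈ ball (c i) 4 := ball_subset_ball (by norm_num) hz₁
    have h4 := h.lip i t ⟨htP, z₁, hz₁, hz₁B⟩ z hz z₁ hz₁4
    have h5 : ‖z - z₁‖ ≤ 8 := by
      have e1 : ‖z - c i‖ < 4 := by simpa [dist_eq_norm] using hz
      have e2 : ‖z₁ - c i‖ < 2 := by simpa [dist_eq_norm] using hz₁
      calc ‖z - z₁‖ = ‖(z - c i) - (z₁ - c i)‖ := by congr 1; abel
        _ ≤ ‖z - c i‖ + ‖z₁ - c i‖ := norm_sub_le _ _
        _ ≤ 8 := by linarith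
    calc ‖t.g z‖ = ‖t.g z₁ + (t.g z - t.g z₁)‖ := by congr 1; abel
      _ ≤ ‖t.g z₁‖ + ‖t.g z - t.g z₁‖ := norm_add_le _ _
      _ ≤ (∑ j, ‖c j‖) + 2 + C * ‖z - z₁‖ := add_le_add h1 h4
      _ ≤ _ := by gcongr
  · exact ⟨Tri.one, ⟨h.one _ isOpen_ball hsub4, c i, hci2, hciB⟩, fun z _ => ⟨rfl, rfl, rfl⟩⟩
  · refine ⟨1 / 4, by norm_num, ?_⟩
    intro t ht s hs hnt hns
    have h42 : (4 / 2 : ℝ) = 2 := by norm_num
    rw [h42] at hnt hns
    have hmap : MapsTo s.g (ball (c i) 1) (ball (c i) 2) := by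
      intro z hz
      have e1 : ‖z - c i‖ < 1 := by simpa [dist_eq_norm] using hz
      have e2 := hns z (ball_subset_ball (by norm_num) hz)
      rw [mem_ball, dist_eq_norm]
      calc ‖s.g z - c i‖ = ‖(s.g z - z) + (z - c i)‖ := by congr 1; abel
        _ ≤ ‖s.g z - z‖ + ‖z - c i‖ := norm_add_le _ _
        _ < 2 := by linarith
    have hP : P (ball (c i) 1) (t.comp s) :=
      h.comp _ _ _ _ _ ht.1 hs.1 isOpen_ball (ball_subset_ball (by norm_num))
        (hmap.mono_right (ball_subset_ball (by norm_num)))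
    have hc1 : c i ∈ ball (c i) 1 := mem_ball_self (by norm_num)
    have hval : (t.comp s).g (c i) ∈ Bd c 2 := by
      apply ball_sub_Bd le_rfl i
      have e1 := hns (c i) hci2
      have e2 := hnt (s.g (c i)) (hmap hc1)
      rw [mem_ball, dist_eq_norm]
      change ‖t.g (s.g (c i)) - c i‖ < 2
      calc ‖t.g (s.g (c i)) - c i‖ = ‖(t.g (s.g (c i)) - s.g (c i)) + (s.g (c i) - c i)‖ := by
            congr 1; abel
        _ ≤ ‖t.g (s.g (c i)) - s.g (c i)‖ + ‖s.g (c i) - c i‖ := norm_add_le _ _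
        _ < 2 := by linarith
    obtain ⟨u, U', hu, hU'o, hcU', hU'sub, hEq⟩ := h.ext i (c i) hci2 _ _ hP hc1 hval
    refine ⟨u, ⟨hu, c i, hci2, ?_⟩, ?_⟩
    · rw [(hEq _ hcU').1]
      exact hval
    · obtain ⟨d, hd, hdU⟩ := Metric.isOpen_iff.1 hU'o _ hcU'
      exact ⟨d, hd, fun z hz => hEq z (hdU hz)⟩
  · refine ⟨1 / 4, by norm_num, ?_⟩
    intro t ht hnt
    have h42 : (4 / 2 : ℝ) = 2 := by norm_num
    rw [h42] at hnt
    obtain ⟨s, U', U'', hsP, hyU', hU''o, hcU'', hU''sub, hmap, hone⟩ :=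
      h.inv _ _ ht.1 (c i) hci4
    have hy2 : t.g (c i) ∈ ball (c i) 2 := by
      rw [mem_ball, dist_eq_norm]
      linarith [hnt (c i) hci2]
    have hsy : s.g (t.g (c i)) = c i := (hone _ hcU'').1
    obtain ⟨u, U3, hu, hU3o, hyU3, hU3sub, hEq⟩ := h.ext i (t.g (c i)) hy2 U' s hsP hyU' (by
      rw [hsy]
      exact hciB)
    refine ⟨u, ⟨hu, t.g (c i), hy2, ?_⟩, ?_⟩
    · rw [(hEq _ hyU3).1, hsy]
      exact hciB
    · have hcont : ContinuousAt t.g (c i) :=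
        ((h.holo _ _ ht.1).2.2.1.continuousOn).continuousAt (isOpen_ball.mem_nhds hci4)
      have h1 : ∀ᶠ z in 𝓝 (c i), t.g z ∈ U3 := hcont.eventually (hU3o.mem_nhds hyU3)
      have h2 : ∀ᶠ z in 𝓝 (c i), z ∈ U'' := hU''o.mem_nhds hcU''
      obtain ⟨d, hd, hdU⟩ := Metric.eventually_nhds_iff_ball.1 (h1.and h2)
      refine ⟨d, hd, fun z hz => ?_⟩
      obtain ⟨e1, e2⟩ := hdU z hz
      obtain ⟨q1, q2, q3⟩ := hEq _ e1
      have hone' := hone z e2
      simp only [Tri.comp] at hone' ⊢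
      rw [q1, q2, q3]
      exact hone'
  · exact ⟨1, one_pos, C, fun t ht _ z hz => h.bgr i t ht z hz (c i) hci4⟩

end Pool.Agent.Helper2.SP
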