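import Pool.Agent.Helper10.SP.GoalsI
import Pool.Agent.Helper2.SP.PG
import Pool.Agent.Helper8.Abund.FDerivHolo

/-! # Packet HVR: generators preserve invariant densities -/

open Complex Metric Set Filter Topology MeasureTheory
open scoped ContDiff ComplexConjugate ComplexOrder Manifold

namespace Pool.Agent.Helper2.SP

open Pool.Agent.Helper95.Lin Pool.Agent.Helper16.Abund Pool.Agent.Helper92.Orb
open Pool.Agent.Helper10.SP

/-- The derivative of the determinant at the identity is the trace. -/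
theorem hasFDeriv_det (b : ℕ) : ∃ L : (Cn b →L[ℂ] Cn b) →L[ℂ] ℂ,
    HasFDerivAt (fun A : Cn b →L[ℂ] Cn b => A.det) L (ContinuousLinearMap.id ℂ (Cn b)) ∧
    ∀ E : Cn b →L[ℂ] Cn b, L E = ∑ j, E (Pi.single j 1) j := by
  have hL := (((contDiff_detC b).differentiable (by simp))
    (ContinuousLinearMap.id ℂ (Cn b))).hasFDerivAt
  refine ⟨_, hL, fun E => ?_⟩
  set L := fderiv ℂ (fun A : Cn b →L[ℂ] Cn b => A.det) (ContinuousLinearMap.id ℂ (Cn b))
  set M : Matrix (Fin b) (Fin b) ℂ := LinearMap.toMatrix' (E : Cn b →ₗ[ℂ] Cn b) with hM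
  have h1 : HasDerivAt (fun r : ℂ => (ContinuousLinearMap.id ℂ (Cn b) + r • E).det) (L E) 0 := by
    have h2 : HasDerivAt (fun r : ℂ => ContinuousLinearMap.id ℂ (Cn b) + r • E)
        ((1 : ℂ) • E) 0 := ((hasDerivAt_id (0 : ℂ)).smul_const E).const_add _
    rw [one_smul] at h2
    have hL' : HasFDerivAt (fun A : Cn b →L[ℂ] Cn b => A.det) L
        (ContinuousLinearMap.id ℂ (Cn b) + (0 : ℂ) • E) := by
      have e0 : ContinuousLinearMap.id ℂ (Cn b) + (0 : ℂ) • E =
          ContinuousLinearMap.id ℂ (Cn b) := by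
        ext
        simp
      rw [e0]
      exact hL
    exact hL'.comp_hasDerivAt (0 : ℂ) h2
  have h3 : ∀ r : ℂ, (ContinuousLinearMap.id ℂ (Cn b) + r • E).det = (1 + r • M).det := by
    intro r
    rw [ContinuousLinearMap.det, ← LinearMap.det_toMatrix', hM]
    congr 1
    have : ((ContinuousLinearMap.id ℂ (Cn b) + r • E : Cn b →L[ℂ] Cn b) : Cn b →ₗ[ℂ] Cn b) =
        LinearMap.id + r • (E : Cn b →ₗ[ℂ] Cn b) := rfl
    rw [this, map_add, map_smul, LinearMap.toMatrix'_id]
  set q := (Matrix.det (1 + (Polynomial.X : Polynomial ℂ) • M.map Polynomial.C)).divX.divX with hq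
  have h4 : HasDerivAt (fun r : ℂ => 1 + M.trace * r + q.eval r * r ^ 2) M.trace 0 := by
    have e1 : HasDerivAt (fun r : ℂ => 1 + M.trace * r) M.trace 0 := by
      have := ((hasDerivAt_id (0 : ℂ)).const_mul M.trace).const_add 1
      simpa using this
    have e2 : HasDerivAt (fun r : ℂ => q.eval r * r ^ 2) 0 0 := by
      have e3 : HasDerivAt (fun r : ℂ => r ^ 2) ((2 : ℕ) * (0 : ℂ) ^ (2 - 1)) 0 :=
        hasDerivAt_pow 2 (0 : ℂ)
      have e4 := (q.hasDerivAt (0 : ℂ)).mul e3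
      have e5 : Polynomial.eval 0 (Polynomial.derivative q) * (0 : ℂ) ^ 2 +
          Polynomial.eval 0 q * ((2 : ℕ) * (0 : ℂ) ^ (2 - 1)) = 0 := by simp
      rw [e5] at e4
      exact e4
    have := e1.add e2
    rw [add_zero] at this
    exact this
  have h5 : (fun r : ℂ => (ContinuousLinearMap.id ℂ (Cn b) + r • E).det) =
      fun r : ℂ => 1 + M.trace * r + q.eval r * r ^ 2 := by
    funext r
    rw [h3, Matrix.det_one_add_smul]
  rw [h5] at h1
  rw [h1.unique h4, Matrix.trace]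
  refine Finset.sum_congr rfl fun j _ => ?_
  rw [Matrix.diag_apply, hM, LinearMap.toMatrix'_apply]
  congr 2

/-- Expansion of a vector. -/
theorem vec_expand {b : ℕ} (v : Cn b) :
    v = ∑ j, ((v j).re • (Pi.single j (1 : ℂ) : Cn b) + (v j).im • (Pi.single j I : Cn b)) := by
  funext k
  rw [Finset.sum_apply, Finset.sum_eq_single k]
  · simp only [Pi.add_apply, Pi.smul_apply, Pi.single_eq_same, Complex.real_smul, mul_one]
    exact (Complex.re_add_im (v k)).symm
  · intro j _ hj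
    simp [Pi.single_eq_of_ne hj.symm]
  · intro h
    exact absurd (Finset.mem_univ k) h

/-- The real part of the divergence. -/
theorem hV_re {b : ℕ} {μ : Cn b → ℝ} {V : Cn b → Cn b} {z : Cn b}
    (hf : DifferentiableAt ℝ (fun y => Real.log (μ y)) z) (hV : DifferentiableAt ℂ V z) :
    (Pool.Agent.Helper10.SP.hV μ V z).re = fderiv ℝ (fun y => Real.log (μ y)) z (V z) +
      2 * (∑ j, fderiv ℂ V z (Pi.single j 1) j).re := by
  set f : Cn b → ℝ := fun y => Real.log (μ y) with hfdef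
  have h1 : fderiv ℝ (fun y => ((f y : ℝ) : ℂ)) z = Complex.ofRealCLM.comp (fderiv ℝ f z) :=
    (Complex.ofRealCLM.hasFDerivAt.comp z hf.hasFDerivAt).fderiv
  have h2 : ∀ j, fderiv ℝ (fun y => V y j) z =
      ((ContinuousLinearMap.proj (R := ℂ) (φ := fun _ : Fin b => ℂ) j).comp
        (fderiv ℂ V z)).restrictScalars ℝ := by
    intro j
    have h3 : HasFDerivAt (fun y => V y j)
        ((ContinuousLinearMap.proj (R := ℂ) (φ := fun _ : Fin b => ℂ) j).comp (fderiv ℂ V z)) z :=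
      (ContinuousLinearMap.proj (R := ℂ) (φ := fun _ : Fin b => ℂ) j).hasFDerivAt.comp z
        hV.hasFDerivAt
    exact (h3.restrictScalars ℝ).fderiv
  unfold Pool.Agent.Helper10.SP.hV
  rw [Complex.re_sum]
  have h4 : ∀ j, (cd j (fun y => ((f y : ℝ) : ℂ)) z * V z j + cd j (fun y => V y j) z).re =
      ((V z j).re * fderiv ℝ f z (Pi.single j 1) + (V z j).im * fderiv ℝ f z (Pi.single j I)) +
        2 * (fderiv ℂ V z (Pi.single j 1) j).re := by
    intro j
    have hI : (Pi.single j I : Cn b) = I • (Pi.single j 1 : Cn b) := by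
      funext k
      by_cases hk : k = j
      · subst hk; simp
      · simp [Pi.single_eq_of_ne hk]
    unfold cd
    rw [h1, h2]
    simp only [ContinuousLinearMap.comp_apply, Complex.ofRealCLM_apply,
      ContinuousLinearMap.coe_restrictScalars', ContinuousLinearMap.proj_apply]
    have e1 : (fderiv ℂ V z (Pi.single j I : Cn b)) j = I * (fderiv ℂ V z (Pi.single j 1)) j := by
      rw [hI, map_smul]
      rfl
    rw [e1]
    simp only [Complex.add_re, Complex.mul_re, Complex.sub_re, Complex.sub_im, Complex.mul_im,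
      Complex.ofReal_re, Complex.ofReal_im, Complex.I_re, Complex.I_im]
    ring
  rw [Finset.sum_congr rfl fun j _ => h4 j, Finset.sum_add_distrib, ← Finset.mul_sum,
    Complex.re_sum]
  congr 1
  conv_rhs => rw [vec_expand (V z), map_sum]
  refine Finset.sum_congr rfl fun j _ => ?_
  rw [map_add, map_smul, map_smul, smul_eq_mul, smul_eq_mul]

/-- **Packet HVR.** -/
theorem hvr : S_HVR := by
  intro b N c R P Φ C h μ hμs hμp hinv i V hgen z hz
  obtain ⟨hVd, t, σ, htP, hσ, hσ0, hlim⟩ := hgen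
  set f : Cn b → ℝ := fun y => Real.log (μ y) with hfdef
  have hopen : IsOpen (Bd c 2) := isOpen_iUnion fun _ => isOpen_ball
  have hzB : z ∈ Bd c 2 := mem_iUnion.2 ⟨i, hz⟩
  have hμd : DifferentiableAt ℝ μ z :=
    ((hμs.differentiableOn (by simp)) z hzB).differentiableAt (hopen.mem_nhds hzB)
  have hfd : DifferentiableAt ℝ f z := hμd.log (hμp z hzB).ne'
  have hz3 : z ∈ ball (c i) 3 := ball_subset_ball (by norm_num) hz
  have hz4 : z ∈ ball (c i) 4 := ball_subset_ball (by norm_num) hz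
  have hVz : DifferentiableAt ℂ V z := (hVd z hz3).differentiableAt (isOpen_ball.mem_nhds hz3)
  rw [hV_re hfd hVz]
  -- radii
  obtain ⟨ε₀, hε₀, hsub⟩ := Metric.isOpen_iff.1 isOpen_ball z hz
  set ρ := ε₀ / 4 with hρ
  have hρ0 : 0 < ρ := by positivity
  have hsub2 : ball z (2 * ρ) ⊆ ball (c i) 2 := (ball_subset_ball (by linarith)).trans hsub
  have hcl : closedBall z ρ ⊆ ball (c i) 2 :=
    (closedBall_subset_ball (by linarith)).trans hsub
  obtain ⟨B, hB⟩ := (isCompact_closedBall z ρ).bddAbove_image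
    ((hVd.continuousOn.mono (hcl.trans (ball_subset_ball (by norm_num)))).norm)
  have hB' : ∀ w ∈ closedBall z ρ, ‖V w‖ ≤ B := fun w hw => hB ⟨w, hw, rfl⟩
  have hB0 : 0 ≤ B := (norm_nonneg _).trans (hB' z (mem_closedBall_self hρ0.le))
  -- the maps on a small ball
  have hev1 : ∀ᶠ n in atTop, σ n * (B + 1) < ρ := by
    have : Tendsto (fun n => σ n * (B + 1)) atTop (𝓝 (0 * (B + 1))) := hσ0.mul_const _
    rw [zero_mul] at this
    exact this.eventually (gt_mem_nhds hρ0)
  have hmove : ∀ᶠ n in atTop, ∀ w ∈ closedBall z ρ, ‖(t n).g w - w‖ ≤ σ n * (B + 1) := by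
    filter_upwards [hlim 1 one_pos] with n hn w hw
    have h1 := hn w (ball_subset_ball (by norm_num) (hcl hw))
    have h2 : ‖(σ n : ℂ) • V w‖ ≤ σ n * B := by
      rw [norm_smul, Complex.norm_real, Real.norm_of_nonneg (hσ n).le]
      exact mul_le_mul_of_nonneg_left (hB' w hw) (hσ n).le
    calc ‖(t n).g w - w‖ = ‖((t n).g w - w - (σ n : ℂ) • V w) + (σ n : ℂ) • V w‖ := by
          congr 1; abel
      _ ≤ ‖(t n).g w - w - (σ n : ℂ) • V w‖ + ‖(σ n : ℂ) • V w‖ := norm_add_le _ _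
      _ ≤ σ n * (B + 1) := by linarith
  have hPB : ∀ᶠ n in atTop, μ z = μ ((t n).g z) * ‖(fderiv ℂ (t n).g z).det‖ ^ 2 ∧
      (t n).g z ∈ Bd c 2 := by
    filter_upwards [hmove, hev1] with n h1 h2
    have hmaps : MapsTo (t n).g (ball z ρ) (Bd c 2) := by
      intro w hw
      refine mem_iUnion.2 ⟨i, hsub2 ?_⟩
      rw [mem_ball, dist_eq_norm]
      have e1 := h1 w (ball_subset_closedBall hw)
      have e2 : ‖w - z‖ < ρ := by simpa [dist_eq_norm] using hw
      calc ‖(t n).g w - z‖ = ‖((t n).g w - w) + (w - z)‖ := by congr 1; abel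
        _ ≤ ‖(t n).g w - w‖ + ‖w - z‖ := norm_add_le _ _
        _ < 2 * ρ := by linarith
    have hb2 : ball z ρ ⊆ Bd c 2 := fun w hw =>
      mem_iUnion.2 ⟨i, hcl (ball_subset_closedBall hw)⟩
    have hb4 : ball z ρ ⊆ ball (c i) 4 := fun w hw =>
      ball_subset_ball (by norm_num) (hcl (ball_subset_closedBall hw))
    have hzρ : z ∈ ball z ρ := mem_ball_self hρ0
    exact ⟨hinv _ _ ⟨h.mono _ _ _ (htP n) isOpen_ball hb4, hb2, hmaps⟩ z hzρ, hmaps hzρ⟩
  -- derivatives
  have hD : Tendsto (fun n => ((σ n : ℂ))⁻¹ • (fderiv ℂ (t n).g z -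
      ContinuousLinearMap.id ℂ (Cn b))) atTop (𝓝 (fderiv ℂ V z)) := by
    rw [Metric.tendsto_nhds]
    intro ε hε
    filter_upwards [hlim (ε / 2 * (ρ / 2)) (by positivity)] with n hn
    have hgd : DifferentiableAt ℂ (t n).g z :=
      ((h.holo _ _ (htP n)).2.2.1 z hz4).differentiableAt (isOpen_ball.mem_nhds hz4)
    have hbb : ball z (2 * (ρ / 2)) ⊆ ball (c i) 3 := by
      intro w hw
      apply ball_subset_ball (by norm_num : (2 : ℝ) ≤ 3)
      apply hcl
      apply ball_subset_closedBall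
      rwa [show 2 * (ρ / 2) = ρ by ring] at hw
    have h1 := Pool.Agent.Helper8.Abund.norm_fderiv_le_of_bound (half_pos hρ0)
      (f := fun w => (t n).g w - w - (σ n : ℂ) • V w) (w := z) (M := ε / 2 * (ρ / 2) * σ n)
      ((((h.holo _ _ (htP n)).2.2.1.mono (hbb.trans (ball_subset_ball (by norm_num)))).sub
        differentiableOn_id).sub ((hVd.mono hbb).const_smul (σ n : ℂ)))
      (fun u hu => hn u (hbb hu))
    have h2 : fderiv ℂ (fun w => (t n).g w - w - (σ n : ℂ) • V w) z =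
        fderiv ℂ (t n).g z - ContinuousLinearMap.id ℂ (Cn b) - (σ n : ℂ) • fderiv ℂ V z :=
      ((hgd.hasFDerivAt.sub (hasFDerivAt_id z)).sub
        (hVz.hasFDerivAt.const_smul (σ n : ℂ))).fderiv
    rw [h2] at h1
    have hσn : (σ n : ℂ) ≠ 0 := by exact_mod_cast (hσ n).ne'
    have h3 : ((σ n : ℂ))⁻¹ • (fderiv ℂ (t n).g z - ContinuousLinearMap.id ℂ (Cn b)) -
        fderiv ℂ V z = ((σ n : ℂ))⁻¹ • (fderiv ℂ (t n).g z -
          ContinuousLinearMap.id ℂ (Cn b) - (σ n : ℂ) • fderiv ℂ V z) := by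
      rw [smul_sub _ _ ((σ n : ℂ) • fderiv ℂ V z), smul_smul, inv_mul_cancel₀ hσn, one_smul]
    rw [dist_eq_norm, h3, norm_smul, norm_inv, Complex.norm_real,
      Real.norm_of_nonneg (hσ n).le]
    calc (σ n)⁻¹ * ‖fderiv ℂ (t n).g z - ContinuousLinearMap.id ℂ (Cn b) -
          (σ n : ℂ) • fderiv ℂ V z‖ ≤ (σ n)⁻¹ * (ε / 2 * (ρ / 2) * σ n / (ρ / 2)) :=
          mul_le_mul_of_nonneg_left h1 (inv_nonneg.2 (hσ n).le)
      _ = ε / 2 := by
          have := (hσ n).ne'
          field_simp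
      _ < ε := by linarith
  have hσC : Tendsto (fun n => (σ n : ℂ)) atTop (𝓝 0) := by
    have := (Complex.continuous_ofReal.tendsto 0).comp hσ0
    rw [Complex.ofReal_zero] at this
    exact this
  have hD0 : Tendsto (fun n => fderiv ℂ (t n).g z - ContinuousLinearMap.id ℂ (Cn b)) atTop
      (𝓝 0) := by
    have h1 := hσC.smul hD
    have e0 : (0 : ℂ) • fderiv ℂ V z = 0 := by
      ext
      simp
    rw [e0] at h1
    refine h1.congr fun n => ?_
    have hσn : (σ n : ℂ) ≠ 0 := by exact_mod_cast (hσ n).ne'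
    rw [smul_smul, mul_inv_cancel₀ hσn, one_smul]
  obtain ⟨L, hL, hLtr⟩ := hasFDeriv_det b
  have hdet1 : (ContinuousLinearMap.id ℂ (Cn b)).det = 1 := by
    simp [ContinuousLinearMap.det]
  have hlog : HasFDerivAt (fun A : Cn b →L[ℂ] Cn b => Complex.log A.det) L
      (ContinuousLinearMap.id ℂ (Cn b)) := by
    have h1 := hL.clog (by
      rw [hdet1]
      exact Complex.one_mem_slitPlane)
    rw [hdet1, inv_one, one_smul] at h1
    exact h1
  have hS2 := (hasFDerivWithinAt_univ.2 hlog).lim hD0 (Eventually.of_forall fun _ => mem_univ _) hD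
  rw [hLtr, hdet1, Complex.log_one] at hS2
  -- values
  have hx : Tendsto (fun n => (σ n)⁻¹ • ((t n).g z - z)) atTop (𝓝 (V z)) := by
    rw [Metric.tendsto_nhds]
    intro ε hε
    filter_upwards [hlim (ε / 2) (by positivity)] with n hn
    have h1 := hn z hz3
    have h3 : (σ n)⁻¹ • ((t n).g z - z) - V z = (σ n)⁻¹ • ((t n).g z - z - (σ n : ℂ) • V z) := by
      have hσn := (hσ n).ne'
      rw [smul_sub _ _ ((σ n : ℂ) • V z)]
      congr 1
      have : (σ n : ℂ) • V z = (σ n) • V z := by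
        funext k
        simp
      rw [this, smul_smul, inv_mul_cancel₀ hσn, one_smul]
    rw [dist_eq_norm, h3, norm_smul, norm_inv, Real.norm_of_nonneg (hσ n).le]
    calc (σ n)⁻¹ * ‖(t n).g z - z - (σ n : ℂ) • V z‖ ≤ (σ n)⁻¹ * (ε / 2 * σ n) :=
          mul_le_mul_of_nonneg_left h1 (inv_nonneg.2 (hσ n).le)
      _ = ε / 2 := by
          have := (hσ n).ne'
          field_simp
      _ < ε := by linarith
  have hx0 : Tendsto (fun n => (t n).g z - z) atTop (𝓝 0) := by
    have h1 := hσ0.smul hx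
    rw [zero_smul] at h1
    refine h1.congr fun n => ?_
    rw [smul_smul, mul_inv_cancel₀ (hσ n).ne', one_smul]
  have hS1 := (hasFDerivWithinAt_univ.2 hfd.hasFDerivAt).lim hx0
    (Eventually.of_forall fun _ => mem_univ _) hx
  have hS2re : Tendsto (fun n => 2 * (((σ n : ℂ))⁻¹ • (Complex.log
      (ContinuousLinearMap.id ℂ (Cn b) + (fderiv ℂ (t n).g z -
        ContinuousLinearMap.id ℂ (Cn b))).det - 0)).re) atTop
      (𝓝 (2 * (∑ j, fderiv ℂ V z (Pi.single j 1) j).re)) :=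
    ((Complex.continuous_re.tendsto _).comp hS2).const_mul 2
  have hsum := hS1.add hS2re
  have hzero : ∀ᶠ n in atTop, (σ n)⁻¹ • (f (z + ((t n).g z - z)) - f z) +
      2 * (((σ n : ℂ))⁻¹ • (Complex.log
      (ContinuousLinearMap.id ℂ (Cn b) + (fderiv ℂ (t n).g z -
        ContinuousLinearMap.id ℂ (Cn b))).det - 0)).re = 0 := by
    filter_upwards [hPB] with n hn
    obtain ⟨h1, h2⟩ := hn
    have hμ1 : 0 < μ z := hμp z hzB
    have hμ2 : 0 < μ ((t n).g z) := hμp _ h2
    have hdne : (fderiv ℂ (t n).g z).det ≠ 0 := (h.pot _ _ (htP n) z hz4).1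
    have hnpos : 0 < ‖(fderiv ℂ (t n).g z).det‖ := norm_pos_iff.2 hdne
    have h3 : f z = f ((t n).g z) + 2 * Real.log ‖(fderiv ℂ (t n).g z).det‖ := by
      simp only [hfdef]
      rw [h1, Real.log_mul hμ2.ne' (by positivity), Real.log_pow]
      norm_num
    rw [add_sub_cancel, add_sub_cancel, sub_zero, smul_eq_mul, smul_eq_mul, h3]
    have h4 : ((σ n : ℂ))⁻¹ = (((σ n)⁻¹ : ℝ) : ℂ) := by push_cast; rfl
    rw [h4, Complex.re_ofReal_mul, Complex.log_re]
    ring
  have h0 : Tendsto (fun n => (σ n)⁻¹ • (f (z + ((t n).g z - z)) - f z) +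
      2 * (((σ n : ℂ))⁻¹ • (Complex.log
      (ContinuousLinearMap.id ℂ (Cn b) + (fderiv ℂ (t n).g z -
        ContinuousLinearMap.id ℂ (Cn b))).det - 0)).re) atTop (𝓝 0) :=
    tendsto_const_nhds.congr' (hzero.mono fun n hn => hn.symm)
  exact tendsto_nhds_unique hsum h0

end Pool.Agent.Helper2.SP
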