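import Pool.Agent.Helper10.SP.GoalsT
import Pool.Agent.Helper67.Lin.MOLC

/-! # Packet MOL2: mollification in `L²` -/

open Complex Metric Set Filter Topology MeasureTheory
open scoped ContDiff ComplexConjugate ComplexOrder Convolution ENNReal

namespace Pool.Agent.Helper2.SP

open Pool.Agent.Helper95.Lin Pool.Agent.Helper10.SP Pool.Agent.Helper67.Lin

/-- The probability measure with density `mol n ε`. -/
noncomputable def nu (n : ℕ) (ε : ℝ) : Measure (Cn n) :=
  volume.withDensity fun y => ENNReal.ofReal (mol n ε y)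

theorem meas_mol (n : ℕ) (ε : ℝ) : Measurable fun y : Cn n => ENNReal.ofReal (mol n ε y) :=
  (mol_cont ε).measurable.ennreal_ofReal

theorem nu_prob {n : ℕ} {ε : ℝ} (hε : 0 < ε) : IsProbabilityMeasure (nu n ε) := by
  constructor
  rw [nu, withDensity_apply _ MeasurableSet.univ, Measure.restrict_univ,
    ← ofReal_integral_eq_lintegral_ofReal
      ((mol_cont ε).integrable_of_hasCompactSupport (mol_cs hε))
      (Eventually.of_forall fun y => mol_nonneg hε y), mol_int hε, ENNReal.ofReal_one]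

theorem nu_ac (n : ℕ) (ε : ℝ) : nu n ε ≪ volume := withDensity_absolutelyContinuous _ _

theorem mollc_eq {n : ℕ} {ε : ℝ} (hε : 0 < ε) (f : Cn n → ℂ) (x : Cn n) :
    mollc f ε x = ∫ y, f (x - y) ∂(nu n ε) := by
  rw [nu, integral_withDensity_eq_integral_toReal_smul (meas_mol n ε)
    (Eventually.of_forall fun y => ENNReal.ofReal_lt_top)]
  unfold mollc
  congr 1
  funext y
  rw [ENNReal.toReal_ofReal (mol_nonneg hε y), Complex.real_smul, mul_comm]

theorem sq_eLp {α : Type*} {E : Type*} [MeasurableSpace α] [NormedAddCommGroup E] (μ : Measure α)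
    (g : α → E) : eLpNorm g 2 μ ^ 2 = ∫⁻ x, ‖g x‖ₑ ^ 2 ∂μ := by
  have h := eLpNorm_nnreal_pow_eq_lintegral (μ := μ) (f := g) (p := 2) (by norm_num)
  simpa using h

theorem mollc_eLpNorm {n : ℕ} {ε : ℝ} (hε : 0 < ε) {f : Cn n → ℂ}
    (hf : AEStronglyMeasurable f volume) :
    eLpNorm (mollc f ε) 2 volume ≤ eLpNorm f 2 volume := by
  haveI := nu_prob (n := n) hε
  rw [← ENNReal.pow_le_pow_left_iff (n := 2) (by norm_num), sq_eLp, sq_eLp]
  have h1 : ∀ x : Cn n, ‖mollc f ε x‖ₑ ^ 2 ≤ ∫⁻ y, ‖f (x - y)‖ₑ ^ 2 ∂(nu n ε) := by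
    intro x
    rw [mollc_eq hε]
    have hm : AEStronglyMeasurable (fun y => f (x - y)) (nu n ε) :=
      (hf.comp_quasiMeasurePreserving
        (Measure.measurePreserving_sub_left volume x).quasiMeasurePreserving).mono_ac (nu_ac n ε)
    calc ‖∫ y, f (x - y) ∂(nu n ε)‖ₑ ^ 2 ≤ (∫⁻ y, ‖f (x - y)‖ₑ ∂(nu n ε)) ^ 2 :=
          pow_le_pow_left' (enorm_integral_le_lintegral_enorm _) 2
      _ = (eLpNorm (fun y => f (x - y)) 1 (nu n ε)) ^ 2 := by rw [eLpNorm_one_eq_lintegral_enorm]
      _ ≤ (eLpNorm (fun y => f (x - y)) 2 (nu n ε)) ^ 2 :=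
          pow_le_pow_left' (eLpNorm_le_eLpNorm_of_exponent_le (by norm_num) hm) 2
      _ = _ := sq_eLp _ _
  calc ∫⁻ x, ‖mollc f ε x‖ₑ ^ 2 ≤ ∫⁻ x, ∫⁻ y, ‖f (x - y)‖ₑ ^ 2 ∂(nu n ε) := lintegral_mono h1
    _ = ∫⁻ y, (∫⁻ x, ‖f (x - y)‖ₑ ^ 2) ∂(nu n ε) := by
        apply lintegral_lintegral_swap
        have h2 : AEStronglyMeasurable (fun p : Cn n × Cn n => f (p.1 - p.2))
            (volume.prod (nu n ε)) :=
          hf.comp_quasiMeasurePreserving (quasiMeasurePreserving_sub_of_right_invariant _ _)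
        exact h2.enorm.pow_const 2
    _ = ∫⁻ _, (∫⁻ x, ‖f x‖ₑ ^ 2) ∂(nu n ε) := by
        congr 1
        funext y
        exact lintegral_sub_right_eq_self (fun x => ‖f x‖ₑ ^ 2) y
    _ = _ := by
        rw [lintegral_const, measure_univ, mul_one]

theorem mollc_conv {n : ℕ} (f : Cn n → ℂ) (ε : ℝ) :
    mollc f ε = (mol n ε) ⋆[ContinuousLinearMap.lsmul ℝ ℝ, volume] f := by
  funext x
  unfold mollc convolution
  congr 1
  funext y
  rw [ContinuousLinearMap.lsmul_apply, Complex.real_smul, mul_comm]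

theorem mollc_smooth {n : ℕ} {ε : ℝ} (hε : 0 < ε) {f : Cn n → ℂ} (hf : LocallyIntegrable f) :
    ContDiff ℝ ∞ (mollc f ε) := by
  rw [mollc_conv]
  exact HasCompactSupport.contDiff_convolution_left _ (mol_cs hε) (mol_contDiff ε) hf

theorem mollc_sub {n : ℕ} {ε : ℝ} (hε : 0 < ε) {f g : Cn n → ℂ} (hf : LocallyIntegrable f)
    (hg : LocallyIntegrable g) (x : Cn n) : mollc (f - g) ε x = mollc f ε x - mollc g ε x := by
  unfold mollc
  have key : ∀ {f : Cn n → ℂ}, LocallyIntegrable f →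
      Integrable fun y => f (x - y) * (mol n ε y : ℂ) := by
    intro f hf
    have h := (mol_cs hε).convolutionExists_left (ContinuousLinearMap.lsmul ℝ ℝ (E := ℂ))
      (mol_cont ε) hf x
    refine h.congr (Eventually.of_forall fun y => ?_)
    simp only [ContinuousLinearMap.lsmul_apply, Complex.real_smul]
    ring
  rw [← integral_sub (key hf) (key hg)]
  congr 1
  funext y
  simp only [Pi.sub_apply]
  ring

theorem mollc_near {n : ℕ} {ε : ℝ} (hε : 0 < ε) {g : Cn n → ℂ} (hg : Continuous g) {η : ℝ}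
    (x : Cn n) (h : ∀ y, ‖y‖ < ε → ‖g (x - y) - g x‖ ≤ η) : ‖mollc g ε x - g x‖ ≤ η := by
  have key : ∀ {f : Cn n → ℂ}, Continuous f → Integrable fun y => f y * (mol n ε y : ℂ) := by
    intro f hf
    apply Continuous.integrable_of_hasCompactSupport
    · exact hf.mul (Complex.continuous_ofReal.comp (mol_cont ε))
    · exact HasCompactSupport.mul_left ((mol_cs hε).comp_left (g := fun r : ℝ => (r : ℂ)) (by simp))
  have h1 : ∫ y, (mol n ε y : ℂ) = 1 := by
    have := integral_complex_ofReal (f := mol n ε) (μ := volume)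
    rw [this, mol_int hε, Complex.ofReal_one]
  have h2 : mollc g ε x - g x = ∫ y, (g (x - y) - g x) * (mol n ε y : ℂ) := by
    unfold mollc
    simp only [sub_mul]
    have k1 : Integrable fun y => g (x - y) * (mol n ε y : ℂ) :=
      key (f := fun y => g (x - y)) (hg.comp (continuous_const.sub continuous_id))
    have k2 : Integrable fun y => g x * (mol n ε y : ℂ) := key (f := fun _ => g x) continuous_const
    rw [integral_sub k1 k2, integral_const_mul, h1, mul_one]
  rw [h2]
  calc ‖∫ y, (g (x - y) - g x) * (mol n ε y : ℂ)‖ ≤ ∫ y, η * mol n ε y := by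
        refine norm_integral_le_of_norm_le
          (((mol_cont ε).integrable_of_hasCompactSupport (mol_cs hε)).const_mul _)
          (Eventually.of_forall fun y => ?_)
        rw [norm_mul, Complex.norm_real, Real.norm_of_nonneg (mol_nonneg hε y)]
        by_cases hy : mol n ε y = 0
        · simp [hy]
        · exact mul_le_mul_of_nonneg_right (h y (norm_lt_of_mol hε hy)) (mol_nonneg hε y)
    _ = η := by rw [integral_const_mul, mol_int hε, mul_one]

theorem conv_cs {n : ℕ} {g : Cn n → ℂ} (hg : Continuous g) (hgc : HasCompactSupport g) :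
    Tendsto (fun ε => eLpNorm (mollc g ε - g) 2 volume) (𝓝[>] 0) (𝓝 0) := by
  set K : Set (Cn n) := cthickening 1 (tsupport g) with hK
  have hKc : IsCompact K := IsCompact.cthickening hgc
  have hKfin : volume K ≠ ⊤ := hKc.measure_lt_top.ne
  have huc := hgc.uniformContinuous_of_continuous hg
  rw [ENNReal.tendsto_nhds_zero]
  intro δ hδ
  -- choose `η` with `η * (vol K)^(1/2) ≤ δ`
  obtain ⟨η, hη, hηδ⟩ : ∃ η : ℝ, 0 < η ∧
      ENNReal.ofReal η * volume K ^ (1 / (2 : ℝ≥0∞).toReal) ≤ δ := by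
    set M : ℝ≥0∞ := volume K ^ (1 / (2 : ℝ≥0∞).toReal) with hM
    have hMfin : M ≠ ⊤ := by
      rw [hM]
      exact ENNReal.rpow_ne_top_of_nonneg (by positivity) hKfin
    have h1 : Tendsto (fun η : ℝ => ENNReal.ofReal η * M) (𝓝[>] 0) (𝓝 0) := by
      have h2 : Tendsto (fun η : ℝ => ENNReal.ofReal η) (𝓝[>] 0) (𝓝 0) := by
        have := (ENNReal.continuous_ofReal.tendsto (0 : ℝ))
        rw [ENNReal.ofReal_zero] at this
        exact this.mono_left nhdsWithin_le_nhds
      have h3 := ENNReal.Tendsto.mul_const h2 (Or.inr hMfin)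
      rwa [zero_mul] at h3
    have h4 := (ENNReal.tendsto_nhds_zero.1 h1 δ hδ).and
      (eventually_mem_nhdsWithin : ∀ᶠ η : ℝ in 𝓝[>] 0, η ∈ Ioi (0 : ℝ))
    obtain ⟨η, h5, h6⟩ := h4.exists
    exact ⟨η, h6, h5⟩
  obtain ⟨ρ, hρ, hρ'⟩ := Metric.uniformContinuous_iff.1 huc η hη
  have hpos : ∀ᶠ ε in 𝓝[>] (0 : ℝ), 0 < ε := eventually_mem_nhdsWithin
  have hlt : ∀ᶠ ε in 𝓝[>] (0 : ℝ), ε < min ρ 1 :=
    eventually_nhdsWithin_of_eventually_nhds (eventually_lt_nhds (lt_min hρ one_pos))
  filter_upwards [hpos, hlt] with ε hε hε'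
  have e1 : ε < ρ := hε'.trans_le (min_le_left _ _)
  have e2 : ε < 1 := hε'.trans_le (min_le_right _ _)
  refine le_trans ?_ hηδ
  have hb : ∀ x, ‖(mollc g ε - g) x‖ ≤ ‖K.indicator (fun _ => (η : ℝ)) x‖ := by
    intro x
    by_cases hx : x ∈ K
    · rw [indicator_of_mem hx, Real.norm_of_nonneg hη.le]
      apply mollc_near hε hg
      intro y hy
      have := hρ' (a := x - y) (b := x) (by
        rw [dist_eq_norm, sub_sub_cancel_left, norm_neg]
        linarith)
      rw [dist_eq_norm] at this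
      exact this.le
    · rw [indicator_of_notMem hx, norm_zero]
      apply mollc_near hε hg
      intro y hy
      have hz : ∀ z, ‖z - x‖ ≤ 1 → g z = 0 := by
        intro z hz
        by_contra hne
        apply hx
        rw [hK]
        refine mem_cthickening_of_dist_le x z 1 _ (subset_tsupport g hne) ?_
        rw [dist_comm, dist_eq_norm]
        exact hz
      rw [hz (x - y) (by rw [sub_sub_cancel_left, norm_neg]; linarith), hz x (by simp)]
      simp
  calc eLpNorm (mollc g ε - g) 2 volume ≤ eLpNorm (K.indicator fun _ => (η : ℝ)) 2 volume :=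
        eLpNorm_mono hb
    _ ≤ ‖(η : ℝ)‖ₑ * volume K ^ (1 / (2 : ℝ≥0∞).toReal) := eLpNorm_indicator_const_le _ _
    _ = _ := by rw [Real.enorm_eq_ofReal hη.le]

theorem conv_L2 {n : ℕ} {f : Cn n → ℂ} (hf : MemLp f 2 volume) :
    Tendsto (fun ε => eLpNorm (mollc f ε - f) 2 volume) (𝓝[>] 0) (𝓝 0) := by
  rw [ENNReal.tendsto_nhds_zero]
  intro δ hδ
  have hδ3 : δ / 3 ≠ 0 := by
    rw [Ne, ENNReal.div_eq_zero_iff]
    push Not
    exact ⟨hδ.ne', by norm_num⟩
  obtain ⟨g, hgc, hfg, hg, hgm⟩ := hf.exists_hasCompactSupport_eLpNorm_sub_le (by norm_num) hδ3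
  have hconv := ENNReal.tendsto_nhds_zero.1 (conv_cs hg hgc) (δ / 3) (pos_iff_ne_zero.2 hδ3)
  have hpos : ∀ᶠ ε in 𝓝[>] (0 : ℝ), 0 < ε := eventually_mem_nhdsWithin
  filter_upwards [hpos, hconv] with ε hε hε'
  have hfl : LocallyIntegrable f := hf.locallyIntegrable (by norm_num)
  have hgl : LocallyIntegrable g := hg.locallyIntegrable
  have e1 : mollc f ε - f = (mollc (f - g) ε + (mollc g ε - g)) + (g - f) := by
    funext x
    simp only [Pi.sub_apply, Pi.add_apply]
    rw [mollc_sub hε hfl hgl]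
    ring
  have m1 : AEStronglyMeasurable (mollc (f - g) ε) volume :=
    (mollc_smooth hε (hfl.sub hgl)).continuous.aestronglyMeasurable
  have m2 : AEStronglyMeasurable (mollc g ε - g) volume :=
    ((mollc_smooth hε hgl).continuous.sub hg).aestronglyMeasurable
  have m3 : AEStronglyMeasurable (g - f) volume := hg.aestronglyMeasurable.sub hf.1
  rw [e1]
  calc eLpNorm ((mollc (f - g) ε + (mollc g ε - g)) + (g - f)) 2 volume
      ≤ eLpNorm (mollc (f - g) ε + (mollc g ε - g)) 2 volume + eLpNorm (g - f) 2 volume :=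
        eLpNorm_add_le (m1.add m2) m3 (by norm_num)
    _ ≤ (eLpNorm (mollc (f - g) ε) 2 volume + eLpNorm (mollc g ε - g) 2 volume) +
        eLpNorm (g - f) 2 volume := by
        gcongr
        exact eLpNorm_add_le m1 m2 (by norm_num)
    _ ≤ (δ / 3 + δ / 3) + δ / 3 := by
        gcongr
        · exact (mollc_eLpNorm hε (hf.1.sub hg.aestronglyMeasurable)).trans hfg
        · rw [eLpNorm_sub_comm]
          exact hfg
    _ = δ := ENNReal.add_thirds δ

theorem int_sq {n : ℕ} {h : Cn n → ℂ} (hm : AEStronglyMeasurable h volume) :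
    ∫ x, ‖h x‖ ^ 2 = (eLpNorm h 2 volume ^ 2).toReal := by
  have h1 : AEStronglyMeasurable (fun x => ‖h x‖ ^ 2) volume := hm.norm.pow 2
  rw [sq_eLp, integral_eq_lintegral_of_nonneg_ae (Eventually.of_forall fun x => by positivity) h1]
  congr 2
  funext x
  rw [ENNReal.ofReal_pow (norm_nonneg _), ofReal_norm_eq_enorm]

/-- **Packet MOL2.** -/
theorem mol2 : S_MOL2 := by
  intro n f hf
  have hfl : LocallyIntegrable f := hf.locallyIntegrable (by norm_num)
  constructor
  · intro ε hε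
    have hs := mollc_smooth hε hfl
    have hm : AEStronglyMeasurable (mollc f ε) volume := hs.continuous.aestronglyMeasurable
    have hb := mollc_eLpNorm hε hf.1
    refine ⟨hs, ⟨hm, hb.trans_lt hf.2⟩, ?_⟩
    rw [int_sq hm, int_sq hf.1]
    apply ENNReal.toReal_mono
    · exact ENNReal.pow_ne_top hf.2.ne
    · gcongr
  · have h1 := conv_L2 hf
    have h2 : Tendsto (fun ε => (eLpNorm (mollc f ε - f) 2 volume ^ 2).toReal) (𝓝[>] 0)
        (𝓝 0) := by
      have h3 := ENNReal.Tendsto.pow (n := 2) h1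
      have h4 := (ENNReal.tendsto_toReal (a := 0 ^ 2) (by simp)).comp h3
      rw [zero_pow two_ne_zero, ENNReal.toReal_zero] at h4
      exact h4
    refine h2.congr' ?_
    have hpos : ∀ᶠ ε in 𝓝[>] (0 : ℝ), 0 < ε := eventually_mem_nhdsWithin
    filter_upwards [hpos] with ε hε
    have hm : AEStronglyMeasurable (mollc f ε - f) volume :=
      ((mollc_smooth hε hfl).continuous.aestronglyMeasurable).sub hf.1
    rw [← int_sq hm]
    rfl

end Pool.Agent.Helper2.SP
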